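import Pool.Agent.MP_187b32_an.Herm.Macro

/-! Tools for the collision gain and the trilinear estimate: sums over levels and over splits,
Leibniz rule for the creation operators, elementary facts on the linearised operator. -/

set_option autoImplicit false

open Pool.Agent.Boltz Finset

noncomputable section

namespace Pool.Agent.MP_187b32_an.Gain

/-! ### Sums over levels -/

/-- Number of terms of a level sum. -/
def NL (n : ℕ) : ℝ := lev n 1 1 fun _ _ => 1

lemma lev_eq (n : ℕ) (θ σ : ℝ) (φ : List (Fin 3) → ℕ → ℝ) :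
    lev n θ σ φ = ∑ j ∈ range (n + 1), ∑ m ∈ range (n + 1 - j), ∑ u ∈ words j,
      θ ^ (u.length + m) * σ ^ (2 * u.length) * φ u m := by
  unfold lev
  refine sum_congr rfl fun j _ => sum_congr rfl fun m _ => ?_
  rw [mul_sum]
  exact sum_congr rfl fun u hu => by rw [mem_words.1 hu]

lemma NL_nonneg (n : ℕ) : 0 ≤ NL n := by
  rw [NL, lev_eq]
  exact sum_nonneg fun _ _ => sum_nonneg fun _ _ => sum_nonneg fun _ _ => by positivity

lemma lev_le_add {n : ℕ} {θ σ c B : ℝ} {φ ψ : List (Fin 3) → ℕ → ℝ}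
    (h : ∀ u m, u.length + m ≤ n → c * (θ ^ (u.length + m) * σ ^ (2 * u.length) * ψ u m) ≤
      θ ^ (u.length + m) * σ ^ (2 * u.length) * φ u m + B) :
    c * lev n θ σ ψ ≤ lev n θ σ φ + NL n * B := by
  rw [NL, lev_eq, lev_eq, lev_eq]
  simp only [mul_sum, sum_mul, ← sum_add_distrib]
  refine sum_le_sum fun j hj => sum_le_sum fun m hm => sum_le_sum fun u hu => ?_
  have h1 := mem_words.1 hu
  have h2 := mem_range.1 hj
  have h3 := mem_range.1 hm
  simpa using h u m (by omega)

lemma abs_lev_le {n : ℕ} {θ σ B : ℝ} {φ : List (Fin 3) → ℕ → ℝ}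
    (h : ∀ u m, u.length + m ≤ n → |θ ^ (u.length + m) * σ ^ (2 * u.length) * φ u m| ≤ B) :
    |lev n θ σ φ| ≤ NL n * B := by
  have h1 := lev_le_add (n := n) (θ := θ) (σ := σ) (c := 0) (B := B) (φ := φ) (ψ := φ)
    fun u m hu => by linarith [(abs_le.1 (h u m hu)).1]
  have h2 := lev_le_add (n := n) (θ := θ) (σ := σ) (c := 1) (B := B) (φ := fun _ _ => 0) (ψ := φ)
    fun u m hu => by linarith [(abs_le.1 (h u m hu)).2]
  have h3 : lev n θ σ (fun _ _ => 0) = 0 := by simp [lev]
  rw [abs_le]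
  constructor <;> linarith

lemma single_le_lev {n : ℕ} {θ σ : ℝ} (hθ : 0 ≤ θ) {φ : List (Fin 3) → ℕ → ℝ}
    (h : ∀ u m, 0 ≤ φ u m) {u : List (Fin 3)} {m : ℕ} (hu : u.length + m ≤ n) :
    θ ^ (u.length + m) * σ ^ (2 * u.length) * φ u m ≤ lev n θ σ φ := by
  have hp : ∀ (u : List (Fin 3)) m, 0 ≤ θ ^ (u.length + m) * σ ^ (2 * u.length) * φ u m :=
    fun u m => mul_nonneg (mul_nonneg (pow_nonneg hθ _) (Even.pow_nonneg (by simp) _)) (h u m)
  rw [lev_eq]
  refine le_trans ?_ (single_le_sum (f := fun j => ∑ m ∈ range (n + 1 - j), ∑ u ∈ words j,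
    θ ^ (u.length + m) * σ ^ (2 * u.length) * φ u m)
    (fun _ _ => sum_nonneg fun _ _ => sum_nonneg fun _ _ => hp _ _)
    (mem_range.2 (show u.length < n + 1 by omega)))
  refine le_trans ?_ (single_le_sum (f := fun m => ∑ u ∈ words u.length,
    θ ^ (u.length + m) * σ ^ (2 * u.length) * φ u m)
    (fun _ _ => sum_nonneg fun _ _ => hp _ _)
    (mem_range.2 (show m < n + 1 - u.length by omega)))
  exact single_le_sum (f := fun u : List (Fin 3) =>
    θ ^ (u.length + m) * σ ^ (2 * u.length) * φ u m) (fun _ _ => hp _ _) (mem_words.2 rfl)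

lemma card_words (m : ℕ) : (words m).card = 3 ^ m := by
  induction m with
  | zero => simp [words]
  | succ m ih => simp [words, ih, pow_succ, mul_comm]

lemma abs_sum_words_le {m n : ℕ} (hm : m ≤ n) {f : List (Fin 3) → ℝ} {B : ℝ} (hB : 0 ≤ B)
    (h : ∀ w, w.length = m → |f w| ≤ B) : |∑ w ∈ words m, f w| ≤ 3 ^ n * B := by
  refine (abs_sum_le_sum_abs _ _).trans ((sum_le_card_nsmul _ _ B fun w hw =>
    h w (mem_words.1 hw)).trans ?_)
  rw [card_words, nsmul_eq_mul]
  push_cast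
  gcongr
  norm_num

/-! ### Sums over splits -/

lemma abs_sum_splits_le (u : List (Fin 3)) {f : List (Fin 3) × List (Fin 3) → ℝ} {B : ℝ}
    (h : ∀ p, p.1.length + p.2.length = u.length → |f p| ≤ B) :
    |((splits u).map f).sum| ≤ 2 ^ u.length * B := by
  induction u generalizing f with
  | nil => simpa [splits] using h ([], []) rfl
  | cons i u ih =>
    have h1 := ih (f := fun p => f (i :: p.1, p.2)) fun p hp => h _ (by simp; omega)
    have h2 := ih (f := fun p => f (p.1, i :: p.2)) fun p hp => h _ (by simp; omega)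
    simp only [splits, List.map_append, List.map_map, List.sum_append, List.length_cons, pow_succ]
    refine (abs_add_le _ _).trans ?_
    simp only [Function.comp_def]
    linarith

lemma abs_sum_splits_sub_le (u : List (Fin 3)) {f : List (Fin 3) × List (Fin 3) → ℝ} {B : ℝ}
    (hB : 0 ≤ B)
    (h : ∀ p, p.1.length + p.2.length = u.length → p.2.length < u.length → |f p| ≤ B) :
    |((splits u).map f).sum - f ([], u)| ≤ 2 ^ u.length * B := by
  induction u generalizing f with
  | nil => simpa [splits] using hB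
  | cons i u ih =>
    have h1 := abs_sum_splits_le u (f := fun p => f (i :: p.1, p.2)) fun p hp =>
      h _ (by simp; omega) (by simp; omega)
    have h2 := ih (f := fun p => f (p.1, i :: p.2)) fun p hp hq =>
      h _ (by simp; omega) (by simp; omega)
    simp only [splits, List.map_append, List.map_map, List.sum_append, List.length_cons, pow_succ]
    rw [add_sub_assoc]
    refine (abs_add_le _ _).trans ?_
    simp only [Function.comp_def]
    linarith

lemma abs_sum_splits_le' {n : ℕ} {u : List (Fin 3)} (hu : u.length ≤ n)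
    {f : List (Fin 3) × List (Fin 3) → ℝ} {B : ℝ} (hB : 0 ≤ B)
    (h : ∀ p, p.1.length + p.2.length = u.length → |f p| ≤ B) :
    |((splits u).map f).sum| ≤ 2 ^ n * B :=
  (abs_sum_splits_le u h).trans (by gcongr; norm_num)

/-! ### The collision operator -/

variable (Q : CollOp)

lemma apW_G (w : List (Fin 3)) (f g : SV) :
    apW w (Q.G f g) = ((splits w).map fun p => Q.G (apW p.1 f) (apW p.2 g)).sum := by
  induction w with
  | nil => simp [splits]
  | cons j w ih =>
    rw [apW_cons, ih, map_list_sum]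
    simp [splits, Function.comp_def, Q.leib, List.sum_map_add]

lemma PP_L (f : SV) : PP (Q.L f) = 0 := by rw [Q.L_eq, map_neg, Q.hyd, neg_zero]

lemma L_PP (f : SV) : Q.L (PP f) = 0 := by
  apply ip_self_eq_zero
  rw [Q.L_symm, ip_PP, PP_L, map_zero]

lemma L_sub_PP (f : SV) : Q.L (f - PP f) = Q.L f := by rw [map_sub, L_PP, sub_zero]

lemma D_nonneg (f : SV) : 0 ≤ ip (Q.L f) f := by
  obtain ⟨lam, hl, h⟩ := Q.gap
  exact (mul_nonneg hl.le (ip_self_nonneg _)).trans (h f)

lemma D_le_dq (f : SV) : ip (Q.L f) f ≤ Q.dq f := le_add_of_nonneg_right (ip_self_nonneg f)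

lemma ip_le_dq (f : SV) : ip f f ≤ Q.dq f := le_add_of_nonneg_left (D_nonneg Q f)

lemma dq_nonneg (f : SV) : 0 ≤ Q.dq f := (ip_self_nonneg f).trans (ip_le_dq Q f)

lemma ip_RR_micro {F : SV} (hF : PP F = 0) (m : ℕ) (g : SV) :
    ip F (RR m g) = ip F (RR m (g - PP g)) := by
  have := ip_sub_RR_PP m F g
  rw [hF, sub_zero] at this
  rw [map_sub, map_sub, this, sub_zero]

/-- The trilinear estimate in terms of `dq`, for both orders of the arguments. -/
lemma tri_dq : ∃ C : ℝ, 0 < C ∧ ∀ g h f,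
    |ip (Q.G g h) f| ≤ C * √(nA Q.p h) * √(Q.dq g) * √(Q.dq f) ∧
    |ip (Q.G g h) f| ≤ C * √(nA Q.p g) * √(Q.dq h) * √(Q.dq f) := by
  obtain ⟨C, hC, h⟩ := Q.tri
  have key : ∀ g k f, |ip (Q.G g k) f| ≤ C * √(nA Q.p k) * √(Q.dq g) * √(Q.dq f) := fun g k f =>
    (h g k f).trans (by unfold CollOp.dq; gcongr; exact D_le_dq Q f)
  exact ⟨C, hC, fun g k f => ⟨key g k f, by rw [Q.symm]; exact key k g f⟩⟩

/-- Coercivity up to the hydrodynamic part. -/
lemma coer : ∃ c : ℝ, 0 < c ∧ ∀ f, c * Q.dq f ≤ ip (Q.L f) f + ip (PP f) (PP f) := by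
  obtain ⟨lam, hl, h⟩ := Q.gap
  refine ⟨lam / (1 + lam), by positivity, fun f => ?_⟩
  have h1 := h f
  have h2 := ip_split f
  have h3 := ip_self_nonneg (PP f)
  rw [div_mul_eq_mul_div, div_le_iff₀ (by positivity), CollOp.dq]
  nlinarith

lemma single_le_YY {n : ℕ} {θ : ℝ} (hθ : 0 ≤ θ) (σ : E3 → ℝ) (G : E3 → SV) (x : E3)
    {u w : List (Fin 3)} (hu : u.length + w.length ≤ n) :
    θ ^ (u.length + w.length) * σ x ^ (2 * u.length) * Q.dq (apW w (dXw u G x)) ≤
      YY Q n θ σ G x := by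
  refine le_trans ?_ (single_le_lev hθ (φ := fun u m => ∑ w ∈ words m, Q.dq (apW w (dXw u G x)))
    (fun _ _ => sum_nonneg fun _ _ => dq_nonneg Q _) hu)
  refine mul_le_mul_of_nonneg_left ?_
    (mul_nonneg (pow_nonneg hθ _) (Even.pow_nonneg (by simp) _))
  exact single_le_sum (f := fun w => Q.dq (apW w (dXw u G x))) (fun _ _ => dq_nonneg Q _)
    (mem_words.2 rfl)

lemma YY_nonneg {n : ℕ} {θ : ℝ} (hθ : 0 ≤ θ) (σ : E3 → ℝ) (G : E3 → SV) (x : E3) :
    0 ≤ YY Q n θ σ G x :=
  le_trans (by simpa using dq_nonneg Q _) (single_le_YY Q hθ σ G x (u := []) (w := []) (by simp))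

lemma nA_apW_le (p : ℕ) (w : List (Fin 3)) (f : SV) : nA p (apW w f) ≤ nA (w.length + p) f := by
  rw [nA_add]
  exact single_le_sum (f := fun w => nA p (apW w f)) (fun _ _ => nA_nonneg _ _) (mem_words.2 rfl)

lemma single_le_bb {N p : ℕ} (σ : E3 → ℝ) (G : E3 → SV) (x : E3)
    {u w : List (Fin 3)} (hu : u.length + w.length ≤ N) :
    σ x ^ (2 * u.length) * nA p (apW w (dXw u G x)) ≤ bb (N + p) 1 σ G G x := by
  have h := single_le_lev (n := N + p) (σ := σ x) zero_le_one
    (φ := fun u m => ip (dXw u G x) (RR m (dXw u G x)))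
    (fun _ _ => by rw [← nA_eq_ip_RR]; exact nA_nonneg _ _) (u := u) (m := w.length + p) (by omega)
  rw [one_pow, one_mul, ← nA_eq_ip_RR] at h
  exact (mul_le_mul_of_nonneg_left (nA_apW_le p w _) (Even.pow_nonneg (by simp) _)).trans h

lemma dXw_micro {G : E3 → SV} (hG : Sm G) (u : List (Fin 3)) (x : E3) :
    dXw u (fun y => G y - PP (G y)) x = dXw u G x - PP (dXw u G x) := by
  rw [dXw_sub hG (hG.clm PP), dXw_clm hG PP]

/-- A uniform constant for the symbol bounds up to order `n`. -/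
lemma sym_le {K : ℕ → ℝ} {σ k : E3 → ℝ} (hk : ∀ x, 0 ≤ k x) (h : SymBd K 0 σ k k) {n : ℕ}
    {u : List (Fin 3)} (hu : u.length ≤ n) (x : E3) :
    σ x ^ u.length * |dXw u k x| ≤ (∑ i ∈ range (n + 1), |K i|) * k x := by
  refine (h u (Nat.zero_le _) x).trans (mul_le_mul_of_nonneg_right ((le_abs_self _).trans ?_) (hk x))
  exact single_le_sum (f := fun i => |K i|) (fun _ _ => abs_nonneg _) (mem_range.2 (by omega))

end Pool.Agent.MP_187b32_an.Gain
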