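import Pool.Agent.MP_187b32_an.Gain.Basic

/-! The pointwise trilinear estimate `GamStmt`. -/

set_option autoImplicit false

open Pool.Agent.Boltz Finset

noncomputable section

namespace Pool.Agent.MP_187b32_an.Gain

variable (Q : CollOp)

lemma ip_list_sum {ι : Type} (l : List ι) (f : ι → SV) (g : SV) :
    ip (l.map f).sum g = (l.map fun i => ip (f i) g).sum := by
  induction l with
  | nil => simp
  | cons a l ih => simp [ih]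

lemma ip_G_RR (a b g : SV) (m : ℕ) :
    ip (Q.G a b) (RR m g) = ∑ w ∈ words m, ((splits w).map fun p =>
      ip (Q.G (apW p.1 a) (apW p.2 b)) (apW w (g - PP g))).sum := by
  rw [ip_RR_micro (Q.hyd a b), ip_RR]
  exact sum_congr rfl fun w _ => by rw [apW_G, ip_list_sum]

lemma mul_sqrt_le {t a Y : ℝ} (ht : 0 ≤ t) (h : t ^ 2 * a ≤ Y) : t * √a ≤ √Y := by
  rw [← Real.sqrt_sq ht, ← Real.sqrt_mul (sq_nonneg t)]
  exact Real.sqrt_le_sqrt h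

lemma sqrt_dq_le {n a : ℕ} {θ : ℝ} (hθ : 0 ≤ θ) (hθ1 : θ ≤ 1) {σ : E3 → ℝ} (hσ : ∀ x, 0 < σ x)
    (G : E3 → SV) (x : E3) {u w : List (Fin 3)} (hu : u.length + w.length ≤ n)
    (ha : u.length + w.length ≤ 2 * a) :
    θ ^ a * σ x ^ u.length * √(Q.dq (apW w (dXw u G x))) ≤ √(YY Q n θ σ G x) := by
  have := hσ x
  refine mul_sqrt_le (by positivity) (le_trans ?_ (single_le_YY Q hθ σ G x hu))
  rw [mul_pow, ← pow_mul, ← pow_mul, mul_comm u.length 2]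
  refine mul_le_mul_of_nonneg_right (mul_le_mul_of_nonneg_right ?_ (by positivity))
    (dq_nonneg Q _)
  exact pow_le_pow_of_le_one hθ hθ1 (by omega)

lemma sqrt_nA_le {N p : ℕ} {σ : E3 → ℝ} (hσ : ∀ x, 0 < σ x) (G : E3 → SV) (x : E3)
    {u w : List (Fin 3)} (hu : u.length + w.length ≤ N) :
    σ x ^ u.length * √(nA p (apW w (dXw u G x))) ≤ √(bb (N + p) 1 σ G G x) := by
  have := hσ x
  refine mul_sqrt_le (by positivity) ?_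
  rw [← pow_mul, mul_comm u.length 2]
  exact single_le_bb σ G x hu

lemma term_le {θn C s₁ s₂ t a b f b₁ Y₂ R : ℝ} (hC : 0 ≤ C) (h0 : 0 ≤ θn) (h1 : 0 ≤ s₁)
    (h2 : 0 ≤ s₂) (ha : 0 ≤ a) (hb : 0 ≤ b) (hf : 0 ≤ f) (hR : 0 ≤ R) (ht : t ≤ C * a * b * f)
    (e1 : s₁ * a ≤ b₁) (e2 : θn * s₂ * b ≤ Y₂) :
    θn * (s₁ * s₂) * t ≤ C * (b₁ * Y₂ + R) * f := by
  have hb₁ : 0 ≤ b₁ := le_trans (by positivity) e1
  calc _ ≤ θn * (s₁ * s₂) * (C * a * b * f) := by gcongr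
    _ = C * ((s₁ * a) * (θn * s₂ * b)) * f := by ring
    _ ≤ C * (b₁ * Y₂) * f := by gcongr
    _ ≤ _ := by gcongr; linarith

lemma term_le₂ {θn θa C Kb k S y su s₀ s₁₂ dk t f : ℝ} (hC : 0 ≤ C) (h0 : 0 < θn) (h1 : 0 ≤ θa)
    (h2 : 0 ≤ su) (h3 : 0 ≤ s₀) (h4 : 0 ≤ s₁₂) (hK : 0 ≤ Kb) (hk : 0 ≤ k) (hS : 0 ≤ S)
    (e1 : s₀ * |dk| ≤ Kb * k) (e2 : θn * s₁₂ * |t| ≤ C * S * f) (e3 : θa * su * f ≤ y) :
    |θa * (su * (s₀ * s₁₂)) * dk * t| ≤ Kb * C / θn * (k * S * y) := by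
  rw [div_mul_eq_mul_div, le_div_iff₀ h0, abs_mul, abs_mul,
    abs_of_nonneg (show 0 ≤ θa * (su * (s₀ * s₁₂)) by positivity)]
  calc _ = (s₀ * |dk|) * (θa * su) * (θn * s₁₂ * |t|) := by ring
    _ ≤ (Kb * k) * (θa * su) * (C * S * f) := by gcongr
    _ = Kb * C * (k * S * (θa * su * f)) := by ring
    _ ≤ _ := by gcongr

theorem gamStmt : GamStmt := by
  intro Q K n θ hθ hθ1
  obtain ⟨C, hC, htri⟩ := tri_dq Q
  obtain ⟨Kb, hKb⟩ : ∃ Kb : ℝ, Kb = ∑ i ∈ range (n + 1), |K i| := ⟨_, rfl⟩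
  have hKb0 : 0 ≤ Kb := hKb ▸ sum_nonneg fun _ _ => abs_nonneg _
  obtain ⟨N, hN⟩ : ∃ N : ℝ, N = NL n := ⟨_, rfl⟩
  have hN0 : 0 ≤ N := hN ▸ NL_nonneg n
  refine ⟨N * (2 ^ n * (2 ^ n * (3 ^ n * (2 ^ n * (Kb * C / θ ^ n))))) + 1, by positivity, ?_⟩
  intro σ k G₁ G₂ H hk hG₁ hG₂ hH hσ hk0 hsym x
  obtain ⟨b₁, hb₁⟩ : ∃ b : ℝ, b = √(bb (n / 2 + Q.p) 1 σ G₁ G₁ x) := ⟨_, rfl⟩
  obtain ⟨b₂, hb₂⟩ : ∃ b : ℝ, b = √(bb (n / 2 + Q.p) 1 σ G₂ G₂ x) := ⟨_, rfl⟩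
  obtain ⟨Y₁, hY₁⟩ : ∃ b : ℝ, b = √(YY Q n θ σ G₁ x) := ⟨_, rfl⟩
  obtain ⟨Y₂, hY₂⟩ : ∃ b : ℝ, b = √(YY Q n θ σ G₂ x) := ⟨_, rfl⟩
  obtain ⟨y, hy⟩ : ∃ b : ℝ, b = √(yy Q n θ σ H x) := ⟨_, rfl⟩
  rw [← hb₁, ← hb₂, ← hY₁, ← hY₂, ← hy]
  have p1 : 0 ≤ b₁ * Y₂ := by rw [hb₁, hY₂]; exact mul_nonneg (Real.sqrt_nonneg _) (Real.sqrt_nonneg _)
  have p2 : 0 ≤ b₂ * Y₁ := by rw [hb₂, hY₁]; exact mul_nonneg (Real.sqrt_nonneg _) (Real.sqrt_nonneg _)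
  have hy0 : 0 ≤ y := hy ▸ Real.sqrt_nonneg _
  have hkx := hk0 x
  have hs := (hσ x).le
  have hS0 : 0 ≤ b₁ * Y₂ + b₂ * Y₁ := add_nonneg p1 p2
  have hP : 0 ≤ k x * (b₁ * Y₂ + b₂ * Y₁) * y := mul_nonneg (mul_nonneg hkx hS0) hy0
  obtain ⟨B, hB⟩ : ∃ B : ℝ, B = Kb * C / θ ^ n * (k x * (b₁ * Y₂ + b₂ * Y₁) * y) := ⟨_, rfl⟩
  have hB0 : 0 ≤ B := hB ▸ mul_nonneg (div_nonneg (mul_nonneg hKb0 hC.le) (pow_nonneg hθ.le _)) hP
  have t2 : (0 : ℝ) ≤ 2 ^ n := pow_nonneg zero_le_two _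
  have t3 : (0 : ℝ) ≤ 3 ^ n := pow_nonneg zero_le_three _
  have hB1 := mul_nonneg t2 hB0
  have hB2 := mul_nonneg t3 hB1
  have main : |bb n θ σ (fun y => k y • Q.G (G₁ y) (G₂ y)) H x| ≤
      NL n * (2 ^ n * (2 ^ n * (3 ^ n * (2 ^ n * B)))) := by
    refine abs_lev_le fun u m hu => ?_
    rw [dXw_smul hk (Sm.bilin Q.G Q.cont hG₁ hG₂), ip_list_sum, ← List.sum_map_mul_left]
    refine abs_sum_splits_le' (by omega) (mul_nonneg t2 hB2) fun q hq => ?_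
    rw [dXw_bilin Q.G Q.cont hG₁ hG₂, map_smul, LinearMap.smul_apply, smul_eq_mul, ip_list_sum,
      ← mul_assoc, ← List.sum_map_mul_left]
    refine abs_sum_splits_le' (by omega) hB2 fun r hr => ?_
    rw [ip_G_RR, mul_sum]
    refine abs_sum_words_le (by omega) hB1 fun w hw => ?_
    rw [← List.sum_map_mul_left]
    refine abs_sum_splits_le' (by omega) hB0 fun p hp => ?_
    have ha := sym_le hk0 hsym (u := q.1) (n := n) (by omega) x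
    have hd := sqrt_dq_le Q hθ.le hθ1 hσ (fun y => H y - PP (H y)) x (n := n) (a := u.length + m)
      (u := u) (w := w) (by omega) (by omega)
    rw [dXw_micro hH] at hd
    have hpow : σ x ^ (2 * u.length) =
        σ x ^ u.length * (σ x ^ q.1.length * (σ x ^ r.1.length * σ x ^ r.2.length)) := by
      rw [← pow_add, ← pow_add, ← pow_add]; congr 1; omega
    rw [hpow, hB]
    refine term_le₂ hC.le (pow_pos hθ n) (pow_nonneg hθ.le _) (pow_nonneg hs _) (pow_nonneg hs _)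
      (mul_nonneg (pow_nonneg hs _) (pow_nonneg hs _)) hKb0 hkx hS0 (hKb ▸ ha) ?_ (hy ▸ hd)
    rcases le_or_gt (r.1.length + p.1.length) (n / 2) with h | h
    · exact term_le hC.le (pow_nonneg hθ.le _) (pow_nonneg hs _) (pow_nonneg hs _)
        (Real.sqrt_nonneg _) (Real.sqrt_nonneg _) (Real.sqrt_nonneg _) p2 (htri _ _ _).2
        (hb₁ ▸ sqrt_nA_le hσ G₁ x h)
        (hY₂ ▸ sqrt_dq_le Q hθ.le hθ1 hσ G₂ x (by omega) (by omega))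
    · rw [mul_comm (σ x ^ r.1.length), add_comm (b₁ * Y₂)]
      exact term_le hC.le (pow_nonneg hθ.le _) (pow_nonneg hs _) (pow_nonneg hs _)
        (Real.sqrt_nonneg _) (Real.sqrt_nonneg _) (Real.sqrt_nonneg _) p1 (htri _ _ _).1
        (hb₂ ▸ sqrt_nA_le hσ G₂ x (by omega))
        (hY₁ ▸ sqrt_dq_le Q hθ.le hθ1 hσ G₁ x (by omega) (by omega))
  refine main.trans ?_
  rw [← hN, hB]
  calc _ = N * (2 ^ n * (2 ^ n * (3 ^ n * (2 ^ n * (Kb * C / θ ^ n))))) *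
        (k x * (b₁ * Y₂ + b₂ * Y₁) * y) := by ring
    _ ≤ _ := by linarith

end Pool.Agent.MP_187b32_an.Gain
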