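import Pool.Agent.MP_187b32_an.Gain.Gam

/-! The pointwise collision gain `GainStmt`. -/

set_option autoImplicit false

open Pool.Agent.Boltz Finset

noncomputable section

namespace Pool.Agent.MP_187b32_an.Gain

variable (Q : CollOp)

lemma sqrt_dq_le_sq {n : ℕ} {τ : ℝ} (hτ : 0 ≤ τ) {σ : E3 → ℝ} (hσ : ∀ x, 0 < σ x)
    (G : E3 → SV) (x : E3) {u w : List (Fin 3)} (hu : u.length + w.length ≤ n) :
    τ ^ (u.length + w.length) * σ x ^ u.length * √(Q.dq (apW w (dXw u G x))) ≤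
      √(YY Q n (τ ^ 2) σ G x) := by
  have := hσ x
  refine mul_sqrt_le (by positivity) (le_of_eq_of_le ?_ (single_le_YY Q (sq_nonneg τ) σ G x hu))
  ring

lemma PP_apW_le_unif (n : ℕ) : ∃ C : ℝ, 0 ≤ C ∧ ∀ (w : List (Fin 3)), w.length ≤ n → ∀ f,
    ip (PP (apW w f)) (PP (apW w f)) ≤ C * ip f f := by
  choose C hC h using PP_apW_le
  refine ⟨∑ m ∈ range (n + 1), ∑ w ∈ words m, C w,
    sum_nonneg fun _ _ => sum_nonneg fun _ _ => hC _, fun w hw f => (h w f).trans ?_⟩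
  refine mul_le_mul_of_nonneg_right ?_ (ip_self_nonneg f)
  refine le_trans ?_ (single_le_sum (f := fun m => ∑ w ∈ words m, C w)
    (fun _ _ => sum_nonneg fun _ _ => hC _) (mem_range.2 (show w.length < n + 1 by omega)))
  exact single_le_sum (f := C) (fun _ _ => hC _) (mem_words.2 rfl)

lemma off_le {τ C M Kb k Y su s₀ s₂ dk t a b f : ℝ} {α β : ℕ} (hβ : β < α) (hτ : 0 ≤ τ)
    (hτ1 : τ ≤ 1) (hC : 0 ≤ C) (h2 : 0 ≤ su) (h3 : 0 ≤ s₀) (h4 : 0 ≤ s₂) (hK : 0 ≤ Kb) (hk : 0 ≤ k)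
    (hY : 0 ≤ Y) (ha : 0 ≤ a) (hb : 0 ≤ b) (hf : 0 ≤ f) (e0 : a ≤ M)
    (e1 : s₀ * |dk| ≤ Kb * k) (e2 : |t| ≤ C * a * b * f) (e3 : τ ^ β * s₂ * b ≤ √Y)
    (e4 : τ ^ α * su * f ≤ √Y) :
    |-((τ ^ 2) ^ α * (su * (s₀ * s₂)) * dk) * t| ≤ Kb * C * M * (τ * k * Y) := by
  have hM : 0 ≤ M := ha.trans e0
  have h5 : τ ^ α ≤ τ ^ β * τ := by
    rw [← pow_succ]; exact pow_le_pow_of_le_one hτ hτ1 hβ
  rw [abs_mul, abs_neg, abs_mul,
    abs_of_nonneg (show 0 ≤ (τ ^ 2) ^ α * (su * (s₀ * s₂)) by positivity)]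
  calc _ = (s₀ * |dk|) * τ ^ α * (τ ^ α * su * s₂) * |t| := by ring
    _ ≤ (Kb * k) * (τ ^ β * τ) * (τ ^ α * su * s₂) * (C * M * b * f) := by
        gcongr
        exact e2.trans (by gcongr)
    _ = Kb * C * M * (τ * k * ((τ ^ β * s₂ * b) * (τ ^ α * su * f))) := by ring
    _ ≤ Kb * C * M * (τ * k * (√Y * √Y)) := by gcongr
    _ = _ := by rw [Real.mul_self_sqrt hY]

theorem gainStmt : GainStmt := by
  intro Q K n
  obtain ⟨C, hC, htri⟩ := tri_dq Q
  obtain ⟨c, hc, hcoer⟩ := coer Q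
  obtain ⟨Cp, hCp, hPP⟩ := PP_apW_le_unif n
  obtain ⟨Kb, hKb⟩ : ∃ Kb : ℝ, Kb = ∑ i ∈ range (n + 1), |K i| := ⟨_, rfl⟩
  have hKb0 : 0 ≤ Kb := hKb ▸ sum_nonneg fun _ _ => abs_nonneg _
  obtain ⟨N, hN⟩ : ∃ N : ℝ, N = NL n := ⟨_, rfl⟩
  have hN0 : 0 ≤ N := hN ▸ NL_nonneg n
  obtain ⟨M, hM⟩ : ∃ M : ℝ, M = √(nA (n + Q.p) sqMS) := ⟨_, rfl⟩
  have hM0 : 0 ≤ M := hM ▸ Real.sqrt_nonneg _
  obtain ⟨D, hD⟩ : ∃ D : ℝ, D = 2 ^ n * (3 ^ n * (2 ^ n * (Kb * C * M))) +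
      3 ^ n * (2 ^ n * (Kb * C * M) + Cp) := ⟨_, rfl⟩
  have hD0 : 0 ≤ D := by rw [hD]; positivity
  obtain ⟨τ0, hτ0⟩ : ∃ t : ℝ, t = c / (2 * (N * D + 1)) := ⟨_, rfl⟩
  have hτ00 : 0 < τ0 := by rw [hτ0]; positivity
  refine ⟨min 1 (τ0 ^ 2), c / 2, lt_min one_pos (pow_pos hτ00 2), min_le_left _ _, half_pos hc, ?_⟩
  intro θ hθ hθ0 σ k G hk hG hσ hk0 hsym x
  obtain ⟨τ, hτ, rfl⟩ : ∃ τ : ℝ, 0 ≤ τ ∧ θ = τ ^ 2 := ⟨√θ, Real.sqrt_nonneg _, (Real.sq_sqrt hθ.le).symm⟩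
  have hτ1 : τ ≤ 1 := by
    have := hθ0.trans (min_le_left _ _)
    exact (sq_le_one_iff₀ hτ).1 this
  have hτ2 : τ ≤ τ0 := (pow_le_pow_iff_left₀ hτ hτ00.le two_ne_zero).1 (hθ0.trans (min_le_right _ _))
  obtain ⟨h, hh⟩ : ∃ h : E3 → SV, h = fun y => G y - PP (G y) := ⟨_, rfl⟩
  have hd : ∀ u, dXw u G x - PP (dXw u G x) = dXw u h x := fun u => by rw [hh, dXw_micro hG]
  obtain ⟨Y, hY⟩ : ∃ Y : ℝ, Y = YY Q n (τ ^ 2) σ h x := ⟨_, rfl⟩
  have hY0 : 0 ≤ Y := hY ▸ YY_nonneg Q (sq_nonneg τ) σ h x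
  have hkx := hk0 x
  have hs := (hσ x).le
  obtain ⟨P, hP⟩ : ∃ P : ℝ, P = τ * k x * Y := ⟨_, rfl⟩
  have hP0 : 0 ≤ P := hP ▸ mul_nonneg (mul_nonneg hτ hkx) hY0
  have t2 : (0 : ℝ) ≤ 2 ^ n := pow_nonneg zero_le_two _
  have t3 : (0 : ℝ) ≤ 3 ^ n := pow_nonneg zero_le_three _
  have hB0 : 0 ≤ Kb * C * M * P := mul_nonneg (mul_nonneg (mul_nonneg hKb0 hC.le) hM0) hP0
  have hB1 := mul_nonneg t2 hB0
  have hB2 := mul_nonneg t3 hB1
  have main : c * k x * YY Q n (τ ^ 2) σ h x ≤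
      bb n (τ ^ 2) σ (fun y => k y • Q.L (G y)) G x + NL n * (D * P) := by
    refine lev_le_add fun u m hu => ?_
    obtain ⟨W, hW⟩ : ∃ W : ℝ, W = (τ ^ 2) ^ (u.length + m) * σ x ^ (2 * u.length) := ⟨_, rfl⟩
    have hW0 : 0 ≤ W := hW ▸ mul_nonneg (pow_nonneg (sq_nonneg τ) _) (pow_nonneg hs _)
    have off : ∀ (q p : List (Fin 3) × List (Fin 3)) (w : List (Fin 3)), w.length = m →
        q.1.length + q.2.length = u.length → p.1.length + p.2.length = w.length →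
        q.2.length + p.2.length < u.length + w.length →
        |-(W * dXw q.1 k x) * ip (Q.G (apW p.1 sqMS) (apW p.2 (dXw q.2 h x)))
          (apW w (dXw u h x))| ≤ Kb * C * M * P := by
      intro q p w hw hq hp hlt
      have hpow : σ x ^ (2 * u.length) =
          σ x ^ u.length * (σ x ^ q.1.length * σ x ^ q.2.length) := by
        rw [← pow_add, ← pow_add]; congr 1; omega
      rw [hW, hpow, hP, ← hw]
      refine off_le hlt hτ hτ1 hC.le (pow_nonneg hs _) (pow_nonneg hs _) (pow_nonneg hs _) hKb0 hkx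
        hY0 (Real.sqrt_nonneg _) (Real.sqrt_nonneg _) (Real.sqrt_nonneg _) ?_
        (hKb ▸ sym_le hk0 hsym (by omega) x) (htri _ _ _).2
        (hY ▸ sqrt_dq_le_sq Q hτ hσ h x (by omega)) (hY ▸ sqrt_dq_le_sq Q hτ hσ h x (by omega))
      exact hM ▸ Real.sqrt_le_sqrt ((nA_apW_le _ _ _).trans (nA_mono (by omega) _))
    have expand : ∀ q : List (Fin 3) × List (Fin 3),
        W * ip (dXw q.1 k x • dXw q.2 (fun y => Q.L (G y)) x) (RR m (dXw u G x)) =
        ∑ w ∈ words m, ((splits w).map fun p => -(W * dXw q.1 k x) *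
          ip (Q.G (apW p.1 sqMS) (apW p.2 (dXw q.2 h x))) (apW w (dXw u h x))).sum := by
      intro q
      rw [dXw_clm hG Q.L]
      simp only [List.sum_map_mul_left]
      rw [← mul_sum, ← hd u, ← ip_G_RR, ← hd q.2, ← L_sub_PP Q (dXw q.2 G x), Q.L_eq]
      simp only [map_smul, map_neg, LinearMap.smul_apply, LinearMap.neg_apply, smul_eq_mul]
      ring
    rw [← hW, dXw_smul hk (hG.clm Q.L), ip_list_sum, ← List.sum_map_mul_left]
    simp only [expand]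
    have h1 := abs_sum_splits_sub_le u (f := fun q => ∑ w ∈ words m, ((splits w).map fun p =>
        -(W * dXw q.1 k x) * ip (Q.G (apW p.1 sqMS) (apW p.2 (dXw q.2 h x)))
          (apW w (dXw u h x))).sum) hB2 fun q hq hlt => by
      refine abs_sum_words_le (by omega) hB1 fun w hw => ?_
      refine abs_sum_splits_le' (by omega) hB0 fun p hp => ?_
      exact off q p w hw hq hp (by omega)
    have h1' : (2 : ℝ) ^ u.length * (3 ^ n * (2 ^ n * (Kb * C * M * P))) ≤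
        2 ^ n * (3 ^ n * (2 ^ n * (Kb * C * M * P))) :=
      mul_le_mul_of_nonneg_right (pow_le_pow_right₀ one_le_two (by omega)) hB2
    have h2 : ∀ w ∈ words m, c * k x * W * Q.dq (apW w (dXw u h x)) ≤ ((splits w).map fun p =>
        -(W * k x) * ip (Q.G (apW p.1 sqMS) (apW p.2 (dXw u h x))) (apW w (dXw u h x))).sum +
          (2 ^ n * (Kb * C * M * P) + Cp * P) := by
      intro w hw
      rw [mem_words] at hw
      have h3 := abs_sum_splits_sub_le w (f := fun p => -(W * k x) *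
          ip (Q.G (apW p.1 sqMS) (apW p.2 (dXw u h x))) (apW w (dXw u h x))) hB0
        fun p hp hlt => off ([], u) p w hw (by simp) hp (by simpa using hlt)
      have h3' : (2 : ℝ) ^ w.length * (Kb * C * M * P) ≤ 2 ^ n * (Kb * C * M * P) :=
        mul_le_mul_of_nonneg_right (pow_le_pow_right₀ one_le_two (by omega)) hB0
      have h4 : ip (Q.G sqMS (apW w (dXw u h x))) (apW w (dXw u h x)) =
          -ip (Q.L (apW w (dXw u h x))) (apW w (dXw u h x)) := by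
        rw [Q.L_eq]; simp
      have h5 : W * ip (PP (apW w (dXw u h x))) (PP (apW w (dXw u h x))) ≤ Cp * (τ * Y) := by
        rcases Nat.eq_zero_or_pos m with h0 | h0
        · rw [List.length_eq_zero_iff.1 (hw.trans h0), apW_nil, ← hd u, PP_sub_PP, map_zero,
            mul_zero]
          exact mul_nonneg hCp (mul_nonneg hτ hY0)
        · have h6 := single_le_YY Q (sq_nonneg τ) σ h x (n := n) (u := u) (w := []) (by simp; omega)
          rw [← hY, apW_nil, List.length_nil, add_zero] at h6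
          have h7 : (τ ^ 2) ^ m ≤ τ := by
            rw [← pow_mul]
            exact pow_le_of_le_one hτ hτ1 (by omega)
          have h8 := (hPP w (by omega) (dXw u h x)).trans
            (mul_le_mul_of_nonneg_left (ip_le_dq Q _) hCp)
          refine (mul_le_mul_of_nonneg_left h8 hW0).trans ?_
          rw [hW, pow_add]
          calc _ = Cp * ((τ ^ 2) ^ m * ((τ ^ 2) ^ u.length * σ x ^ (2 * u.length) *
                Q.dq (dXw u h x))) := by ring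
            _ ≤ _ := mul_le_mul_of_nonneg_left (mul_le_mul h7 h6 (mul_nonneg (mul_nonneg
                (pow_nonneg (sq_nonneg τ) _) (pow_nonneg hs _)) (dq_nonneg Q _)) hτ) hCp
      have h6 := mul_le_mul_of_nonneg_left (hcoer (apW w (dXw u h x))) (mul_nonneg hW0 hkx)
      have h7 := mul_le_mul_of_nonneg_left h5 hkx
      simp only [apW_nil, h4] at h3
      have h8 := (abs_le.1 h3).1
      have h9 : k x * (Cp * (τ * Y)) = Cp * P := by rw [hP]; ring
      linarith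
    have h3 := sum_le_sum h2
    rw [sum_add_distrib, sum_const, card_words, nsmul_eq_mul, ← mul_sum] at h3
    have h4 : ((3 ^ m : ℕ) : ℝ) * (2 ^ n * (Kb * C * M * P) + Cp * P) ≤
        3 ^ n * (2 ^ n * (Kb * C * M * P) + Cp * P) := by
      refine mul_le_mul_of_nonneg_right ?_ (add_nonneg hB1 (mul_nonneg hCp hP0))
      push_cast
      exact pow_le_pow_right₀ (by norm_num) (by omega)
    have h5 := (abs_le.1 h1).1
    simp only [dXw_nil] at h5
    have h6 : D * P = 2 ^ n * (3 ^ n * (2 ^ n * (Kb * C * M * P))) +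
        3 ^ n * (2 ^ n * (Kb * C * M * P) + Cp * P) := by rw [hD]; ring
    linarith
  have e : yy Q n (τ ^ 2) σ G x = Y := by rw [hY, hh]; rfl
  rw [e]
  rw [← hY, ← hN] at main
  have h1 : N * D * τ ≤ c / 2 := by
    have h2 : τ0 * (2 * (N * D + 1)) = c := by rw [hτ0]; field_simp
    have h3 := mul_le_mul_of_nonneg_left hτ2 (mul_nonneg hN0 hD0)
    linarith
  have h2 := mul_le_mul_of_nonneg_right h1 (mul_nonneg hkx hY0)
  have h3 : N * (D * P) = N * D * τ * (k x * Y) := by rw [hP]; ring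
  linarith

end Pool.Agent.MP_187b32_an.Gain
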